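import Pool.Agent.H71.CQ.Basic

/-!
# BOR. Conjugacy of multiplicities is Borel
-/

set_option autoImplicit false

open Set

namespace Pool.Agent.H82.CQ

open Pool.Agent.H71.CQ

section

variable {L : Type} {N : NF L} {e0 : ℕ → ℕ → L} {ι : Type} {e : ι → ℕ → ℕ → L}
  {g : ∀ i, {x // Wp N e0 x} ≃ {x // Wp N (e i) x}} {x : ι → ℕ}

/-- the action of an automorphism on the pieces is defined everywhere -/
theorem ac_exists (hR : Rep N e0 e g x) {h : {x // Wp N e0 x} ≃ {x // Wp N e0 x}}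
    (hh : WIso N e0 e0 h) (i : ι) : ∃ i', Ac N e0 e g x h i i' := by
  obtain ⟨i', hi'⟩ := hR.ex (e i) (h.symm.trans (g i)) (x i) (hR.m i) (hR.s i)
    (hh.symm.trans (hR.w i)) (hR.hx i)
  exact ⟨i', PI.symm hi'⟩

/-- and single valued -/
theorem ac_unique (hR : Rep N e0 e g x) {h : {x // Wp N e0 x} ≃ {x // Wp N e0 x}} {i i1 i2 : ι}
    (h1 : Ac N e0 e g x h i i1) (h2 : Ac N e0 e g x h i i2) : i1 = i2 := by
  have h3 := PI.trans (PI.symm h1) h2
  have h4 : ((g i).symm.trans (h.trans (g i1))).symm.trans ((g i).symm.trans (h.trans (g i2))) =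
      (g i1).symm.trans (g i2) := by
    ext z
    simp
  rw [h4] at h3
  exact hR.un _ _ h3

/-- the action depends only on the values at the linked points -/
theorem ac_congr (hR : Rep N e0 e g x) {h h0 : {x // Wp N e0 x} ≃ {x // Wp N e0 x}}
    (hh : WIso N e0 e0 h) (hh0 : WIso N e0 e0 h0) {i i' : ι}
    (hK : ∀ k, Lk N (e i) (x i) (g i k) → h0 k = h k) (ha : Ac N e0 e g x h i i') :
    Ac N e0 e g x h0 i i' := by
  obtain ⟨f, f1, f2⟩ := ha
  refine ⟨f, f1, ?_⟩
  intro k y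
  have hφ : WIso N (e i) (e i) ((g i).symm.trans (h0.trans (h.symm.trans (g i)))) :=
    (hR.w i).symm.trans (hh0.trans (hh.symm.trans (hR.w i)))
  have e1 : ((g i).symm.trans (h0.trans (g i'))) k = ((g i).symm.trans (h.trans (g i')))
      (((g i).symm.trans (h0.trans (h.symm.trans (g i)))) k) := by simp
  have e2 : e i (((g i).symm.trans (h0.trans (h.symm.trans (g i)))) k) y = e i k y := by
    by_cases hl : Lk N (e i) (x i) k
    · have h3 := hK ((g i).symm k) (by rw [(g i).apply_symm_apply]; exact hl)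
      have h4 : ((g i).symm.trans (h0.trans (h.symm.trans (g i)))) k = k := by
        simp [h3]
      rw [h4]
    · by_contra h3
      exact hl ⟨_, hφ, y, y.2, fun h4 => h3 h4.symm⟩
  rw [e1, f2, e2]

/-- compactness -/
theorem tm_iff (hLIM : T_LIM) (hN : N.Sep) [Encodable ι] (hR : Rep N e0 e g x) (m m' : ι → ℕ∞) :
    Tm N e0 e g x m m' ↔ ∀ n : ℕ, ∃ h : {x // Wp N e0 x} ≃ {x // Wp N e0 x}, WIso N e0 e0 h ∧
      ∀ i, Encodable.encode i ≤ n → ∀ i', Ac N e0 e g x h i i' → m' i' = m i := by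
  constructor
  · rintro ⟨h, h1, h2⟩ n
    exact ⟨h, h1, fun i _ i' ha => h2 i i' ha⟩
  · intro H
    choose h h1 h2 using H
    obtain ⟨h0, h3, h4⟩ := hLIM L N hN ℕ ℕ e0 e0 hR.m0 hR.m0 (fun _ => Iff.rfl) h h1
    refine ⟨h0, h3, fun i i' ha => ?_⟩
    have hfin : {k | Lk N (e i) (x i) (g i k)}.Finite :=
      Set.Finite.preimage (s := {k | Lk N (e i) (x i) k}) (f := g i) (g i).injective.injOn
        (hR.lk i)
    obtain ⟨n, hn, hk⟩ := h4 _ hfin (Encodable.encode i)
    exact h2 n i hn i' (ac_congr hR h3 (h1 n) (fun k hl => (hk k hl).symm) ha)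

end

theorem pf_BOR (hLIM : T_LIM) : T_BOR := by
  intro L N hN e0 ι _ e g x hR
  classical
  have := Encodable.ofCountable ι
  have h1 : {p : (ι → ℕ∞) × (ι → ℕ∞) | Tm N e0 e g x p.1 p.2} =
      ⋂ n : ℕ, ⋃ s : {s : {i : ι // Encodable.encode i ≤ n} → ι |
        ∃ h : {x // Wp N e0 x} ≃ {x // Wp N e0 x}, WIso N e0 e0 h ∧
          ∀ i, Ac N e0 e g x h i.1 (s i)},
        ⋂ i : {i : ι // Encodable.encode i ≤ n},
          {p : (ι → ℕ∞) × (ι → ℕ∞) | p.2 (s.1 i) = p.1 i.1} := by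
    ext ⟨m, m'⟩
    simp only [Set.mem_ofPred_eq, Set.mem_iInter, Set.mem_iUnion]
    rw [tm_iff hLIM hN hR]
    refine forall_congr' fun n => ?_
    constructor
    · rintro ⟨h, h1, h2⟩
      choose s hs using fun i : {i : ι // Encodable.encode i ≤ n} => ac_exists hR h1 i.1
      exact ⟨⟨s, h, h1, hs⟩, fun i => h2 i.1 i.2 _ (hs i)⟩
    · rintro ⟨⟨s, h, h1, hs⟩, h2⟩
      refine ⟨h, h1, fun i hi i' ha => ?_⟩
      rw [ac_unique hR ha (hs ⟨i, hi⟩)]
      exact h2 ⟨i, hi⟩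
  rw [h1]
  refine MeasurableSet.iInter fun n => ?_
  have : Finite {i : ι // Encodable.encode i ≤ n} :=
    ((Set.finite_Iic n).preimage (Encodable.encode_injective (α := ι)).injOn).to_subtype
  refine MeasurableSet.iUnion fun s => ?_
  refine MeasurableSet.iInter fun i => ?_
  exact measurableSet_eq_fun ((measurable_pi_apply _).comp measurable_snd)
    ((measurable_pi_apply _).comp measurable_fst)

end Pool.Agent.H82.CQ
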